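import Pool.Agent.N23.B20.Reduce

set_option autoImplicit false

/-!
# Every star-regular ring lies in the variety generated by the artinian star-regular rings

Sketch of the proof. A nonzero element of a star-regular ring survives in a star-regular quotient
`R` that is an algebra over a prime field `k`. Let `A` be the tensor algebra of the `k`-space `R`
with the involution extending that of `R`, let `φ : R → A` be the inclusion in degree one and let
`D` be the universal field of fractions of `A`, a division ring with involution. For linearly
independent `b_1, …, b_n` in `R` the hermitian matrix `H = (φ (b_i b_j^*))` is anisotropic over `D`;
this follows from a noncommutative version of the Amer-Brumer theorem: a linear hermitian matrix over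
the free algebra is anisotropic over `D` as soon as it represents `0` at no nonzero vector over `k`.
So the matrices over `D` with the adjoint involution `M ↦ H M^* H⁻¹` form an artinian star-regular
ring, and the elements `(φ (b_i a b_j^*)) H⁻¹` of these rings approximate the right multiplication by
`a` in `R` so well that every identity, the Moore-Penrose inversion included, passes to `R`.
-/

namespace Pool.Agent.Results.MP_b20f23_al.AllStarRegular

open Pool.Agent.N23.B20

universe u

/-- Every `*`-regular ring, unit-regular or not, satisfies every identity in the signature
`(+, -, ·, 0, 1, *, ⁺)` that holds in all artinian `*`-regular rings: it is a member of the variety
`𝒜` generated by the artinian `*`-regular rings. -/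
theorem result : ∀ (R : Type u) [Ring R] [StarRing R], StarRegular R → InVarietyA R := by
  intro R _ _ hR
  exact inVarietyA hR

end Pool.Agent.Results.MP_b20f23_al.AllStarRegular
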